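import Pool.Agent.W907.SM.Final

/-!
# The Singer conjecture for right-angled Coxeter groups based on barycentric subdivisions

`GorStar n r rk`: the strict partial order `r`, graded by `rk : V → Fin n`, has a Gorenstein* order complex over
`F_2` (all links of chains are mod 2 homology spheres of the right dimension). For the right-angled Coxeter group
whose nerve is this order complex, the reduced `ℓ²`-homology of the Davis complex vanishes in all degrees
`i ≠ n / 2`. In particular this holds for the barycentric subdivisions of all triangulated spheres.

Idea: let the generators of even rank act on a tensor product (over the even ranks) of planes `K²`, `K = F_2(t)`,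
with generic lines as eigenlines. The resulting chain complex of the elements of even rank is exact off the
middle: in odd length a top cycle `x` satisfies `∑_T (∏_{v ∈ T} t_v) x_T² = 0` because of a recursively defined
symmetric bilinear form, so `x = 0`. This lifts to representations over `F_p[c]/(c^N)`, `p` a large odd prime, on
which a finite-index subgroup acts unipotently, and bounds the mod `p` Betti numbers of finite covers. Elements of
odd rank have acyclic links by induction.
-/

namespace Pool.Agent.Results.MP_4f4d9f_gt.GorensteinOrderComplexes

open Pool.Agent.W907.SG Pool.Agent.W907.SM

/-- The Singer conjecture for the right-angled Coxeter groups whose nerve is the order complex of a graded poset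
which is Gorenstein* over `F_2`. -/
theorem result : ∀ (n : ℕ) (V : Type) [Fintype V] [LinearOrder V] (r : V → V → Prop) (rk : V → Fin n),
    GorStar n r rk → ∀ i : ℕ, 2 * i ≠ n → L2Van (cmp r) i :=
  singerGor

end Pool.Agent.Results.MP_4f4d9f_gt.GorensteinOrderComplexes
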